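import Mathlib
import Pool.Agent.U109.HHH.Van

/-!
# The Hermite-Hadamard-Howe map and rectangular modules: a counterexample in odd degree

Question Q1 asks whether for all `d, n ≥ 1` with `S_{(d^n)} V` occurring in `S^d(S^n V)` the map
`h_{d,n} : S^d(S^n V) → S^n(S^d V)` does not vanish on the `S_{(d^n)} V`-isotypic component.

The answer is no: for `(d, n) = (7, 4)` and every `V = ℂ^m`, `m ≥ 4`, the isotypic component is not
zero and `h_{7,4}` vanishes on it.

* `S_{(7^4)} V` occurs in `S^7(S^4 V)`: the invariant of degree seven of quartic forms in four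
  variables which is the product of seven brackets of four letters, the complements of the lines of
  the Fano plane, symmetrised over the seven letters, is not zero. (Its polarisation at the fourth
  powers of seven explicit linear forms is computed.)
* For odd `d` and `n ≥ 2` the map `h_{d,n}` vanishes on the `S_{(d^n)} V`-isotypic component, since
  the permutation matrices act on it by the `d`-th power of the sign.
-/

set_option autoImplicit false

namespace Pool.Agent.Results.MP_96ff56_al.OddDegrees

open Pool.Agent.T6.H18.HH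

/-- **Q1 is false.** (1) For `(d, n) = (7, 4)` and `V = ℂ^m` with `m ≥ 4`, the
`S_{(d^n)} V`-isotypic component of `S^d(S^n V)` is not zero, and `h_{d,n}` vanishes on it.
(2) For all odd `d`, all `n ≥ 2` and `V = ℂ^m` with `m ≥ n`, `h_{d,n}` vanishes on the
`S_{(d^n)} V`-isotypic component of `S^d(S^n V)`. -/
theorem result :
    (∃ d n : ℕ, d = 7 ∧ n = 4 ∧ ∀ m : ℕ, n ≤ m →
      isotypic m d n ≤ SdSn m d n ∧ isotypic m d n ≠ ⊥ ∧ ∀ t ∈ isotypic m d n, hhh t = 0) ∧
    (∀ m d n : ℕ, 2 ≤ n → n ≤ m → Odd d → ∀ t ∈ isotypic m d n, hhh t = 0) := by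
  refine ⟨⟨7, 4, rfl, rfl, fun m hm => ⟨?_, ?_, ?_⟩⟩, fun m d n hn hnm hd =>
    Pool.Agent.U109.HHH.vanish hn hnm hd⟩
  · rw [isotypic, Submodule.span_le]
    rintro _ ⟨f, _, h, w, hw, rfl⟩
    exact h w hw
  · intro h
    obtain ⟨t, ht, h0⟩ := Pool.Agent.U109.HHH.occurs m hm
    rw [h, Submodule.mem_bot] at ht
    exact h0 ht
  · exact Pool.Agent.U109.HHH.vanish (by norm_num) hm (by decide)

end Pool.Agent.Results.MP_96ff56_al.OddDegrees
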